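import Pool.Agent.J4.H36.KP.Torus

/-!
# Short sums of the Möbius function twisted by real polynomial phases

For almost all real polynomials `P` without constant term, of a large fixed degree, the sums
`∑_{d ≤ H} f(d) e(P(d)) μ(n + d)` follow the complex gaussian law, for `n` uniform in any dense subset of `[X, 2X]`. Nothing
is assumed, and `H ≤ X` is arbitrary.

The steps: for a prime `q > H` and a random polynomial of degree at most `K` modulo `q` the values at any `K` of the
points `1, ..., H` are independent (`evalHom_surj`); the first `K` moments of a linear statistic of the values are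
compared with the ones of independent values, and the error of Taylor's formula is bounded with the exponential moments
(`char_kp`); this is done for two windows `n, n'` with the same polynomial, where almost all pairs of windows are almost
orthogonal by the averaged Chowla theorem of Matomäki, Radziwiłł and Tao (in the starting files, `TH823.MRS`) (`main_kp`);
Lévy's theorem in the plane gives the law for almost all polynomials modulo `q`, for arbitrary test functions of the
values (`partP`); the translation of a real polynomial by the rational polynomials with denominator `q` preserves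
Lebesgue measure on the torus, which gives the real polynomials (`partT`); finitely many directions in the plane suffice
(`net`).
-/

set_option autoImplicit false

namespace Pool.Agent.Results.MP_4f18df_nt.PolynomialPhases

open Finset Filter Topology MeasureTheory ProbabilityTheory
open Pool.Agent.J4.H36.KP

/-- the sum of `f(d) e(P(d)) μ(n + d)` over `1 ≤ d ≤ H` with `P(d) = α₁ d + α₂ d² + ... + α_K d^K` -/
noncomputable def S (K H : ℕ) (f : ℕ → ℝ) (α : Fin K → ℝ) (n : ℕ) : ℂ :=
  ∑ d ∈ Icc 1 H, (f d : ℂ) *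
    Complex.exp (2 * Real.pi * Complex.I * ((∑ i : Fin K, α i * (d : ℝ) ^ ((i : ℕ) + 1) : ℝ) : ℂ)) *
    ((ArithmeticFunction.moebius (n + d) : ℤ) : ℂ)

/-- Let `ε > 0` and `V` be given, let `K` and `H` be large, let `X ≥ H`, let `A ⊆ [X, 2X]` be any set of at least `ε X`
integers, and let `f : {1, ..., H} → [-1, 1]` be any weight with variation at most `V` and mean square at least `ε` (for
example `f = 1`). Then the set of all `α ∈ (0, 1]^K` for which the law of
`∑_{d ≤ H} f(d) e(α₁ d + ... + α_K d^K) μ(n + d)`, divided by `√((3/π²) ∑ f(d)²)`, for `n` uniform in `A`, is not within `ε`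
of the law of `N₁ + i N₂` with independent standard normal `N₁`, `N₂` has Lebesgue measure at most `ε`; here the distance
is the supremum over all closed half-planes of the difference of the probabilities. -/
theorem result (ε V : ℝ) (hε : 0 < ε) : ∃ K₀ : ℕ, ∀ K ≥ K₀, ∀ H ≥ K₀, ∀ X ≥ H, ∀ A ⊆ Icc X (2 * X), ε * X ≤ #A →
    ∀ f : ℕ → ℝ, (∀ d ∈ Icc 1 H, |f d| ≤ 1) → ∑ d ∈ Ico 1 H, |f (d + 1) - f d| ≤ V → ε * H ≤ ∑ d ∈ Icc 1 H, f d ^ 2 →
    volume {α : Fin K → ℝ | (∀ i, α i ∈ Set.Ioc 0 1) ∧ ¬ ∀ u : ℂ, ‖u‖ = 1 → ∀ t : ℝ,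
      |(#{n ∈ A | (u * S K H f α n).re / Real.sqrt (3 / Real.pi ^ 2 * ∑ d ∈ Icc 1 H, f d ^ 2) ≤ t} : ℝ) / #A -
        cdf (gaussianReal 0 1) t| ≤ ε} ≤ ENNReal.ofReal ε := by
  have hP : ∀ t : ℝ, cdf (gaussianReal 0 1) t = Pool.Agent.J4.H66.MG.Phi t := fun t => by
    rw [Pool.Agent.J4.H66.MG.Phi_cdf]
  obtain ⟨K₀, hK1, hT⟩ := partT ε (max V 0) hε (le_max_right _ _)
  refine ⟨K₀, fun K hK H hH X hX A hA hAc f hf hV hs => ?_⟩
  have hHp : (0 : ℝ) < H := by exact_mod_cast (by omega : 0 < H)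
  obtain ⟨g, hg⟩ : ∃ g : ℕ → ℝ, g = fun d => if d ∈ Icc 1 H then f d else 0 := ⟨_, rfl⟩
  have hgf : ∀ d ∈ Icc 1 H, g d = f d := by
    intro d hd
    rw [hg]
    exact if_pos hd
  have e1 : ∑ d ∈ Icc 1 H, g d ^ 2 = ∑ d ∈ Icc 1 H, f d ^ 2 := sum_congr rfl (fun d hd => by rw [hgf d hd])
  have e2 : ∑ d ∈ Ico 1 H, |g (d + 1) - g d| = ∑ d ∈ Ico 1 H, |f (d + 1) - f d| := by
    apply sum_congr rfl
    intro d hd
    rw [mem_Ico] at hd
    rw [hgf d (mem_Icc.2 (by omega)), hgf (d + 1) (mem_Icc.2 (by omega))]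
  obtain ⟨B, hBm, hB, hgood⟩ := hT K hK H hH X hX g (by
    intro d
    rw [hg]
    simp only
    split_ifs with hd
    · exact hf d hd
    · simp) (by rw [e2]; exact hV.trans (le_max_left _ _)) (by
      unfold Pool.Agent.J4.H66.MG.sg
      rw [e1, le_div_iff₀ hHp]
      exact hs) A hA hAc
  -- the map to the torus
  obtain ⟨pr, hpr⟩ : ∃ pr : (Fin K → ℝ) → (Fin K → UnitAddCircle), pr = fun α i => ((α i : ℝ) : UnitAddCircle) := ⟨_, rfl⟩
  have hmp : MeasurePreserving pr (volume.restrict (Set.univ.pi (fun _ => Set.Ioc (0 : ℝ) 1))) volume := by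
    have h := measurePreserving_pi (fun _ : Fin K => volume.restrict (Set.Ioc (0 : ℝ) (0 + 1)))
      (fun _ : Fin K => (volume : Measure UnitAddCircle)) (fun _ => UnitAddCircle.measurePreserving_mk 0)
    rw [zero_add] at h
    rw [hpr, volume_pi, Measure.restrict_pi_pi, volume_pi]
    exact h
  have hph : ∀ (α : Fin K → ℝ) (d : ℕ), EV (pr α) d =
      Complex.exp (2 * Real.pi * Complex.I * ((∑ i : Fin K, α i * (d : ℝ) ^ ((i : ℕ) + 1) : ℝ) : ℂ)) := by
    intro α d
    have h1 : PV (pr α) d = ((∑ i : Fin K, α i * (d : ℝ) ^ ((i : ℕ) + 1) : ℝ) : UnitAddCircle) := by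
      unfold PV
      have h2 := map_sum (QuotientAddGroup.mk' (AddSubgroup.zmultiples (1 : ℝ)))
        (fun i : Fin K => α i * (d : ℝ) ^ ((i : ℕ) + 1)) univ
      refine Eq.trans ?_ h2.symm
      apply sum_congr rfl
      intro i _
      have h3 : α i * (d : ℝ) ^ ((i : ℕ) + 1) = (d ^ ((i : ℕ) + 1)) • α i := by
        rw [nsmul_eq_mul]
        push_cast
        ring
      rw [h3, map_nsmul, hpr]
      rfl
    unfold EV
    rw [h1, AddCircle.toCircle_apply_mk, Circle.coe_exp]
    congr 1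
    push_cast
    ring
  have hval : ∀ (α : Fin K → ℝ) (u : ℂ) (n : ℕ),
      (u * S K H f α n).re / Real.sqrt (3 / Real.pi ^ 2 * ∑ d ∈ Icc 1 H, f d ^ 2) = (u * ZC H g (pr α) n).re := by
    intro α u n
    unfold ZC
    have h1 : ∑ d ∈ Icc 1 H, (g d : ℂ) * EV (pr α) d * Pool.Agent.J4.H66.MG.mu (n + d) = S K H f α n := by
      unfold S
      apply sum_congr rfl
      intro d hd
      rw [hgf d hd, hph]
      unfold Pool.Agent.J4.H66.MG.mu
      push_cast
      rfl
    rw [h1, ← mul_assoc, Complex.re_mul_ofReal]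
    have h2 : Real.sqrt 2 / dn H g = 1 / Real.sqrt (3 / Real.pi ^ 2 * ∑ d ∈ Icc 1 H, f d ^ 2) := by
      unfold dn Pool.Agent.J4.H66.MG.sg Pool.Agent.J4.H66.MG.cc
      rw [e1]
      have h3 : (6 / Real.pi ^ 2) * ((H : ℝ) * ((∑ d ∈ Icc 1 H, f d ^ 2) / H)) =
          2 * (3 / Real.pi ^ 2 * ∑ d ∈ Icc 1 H, f d ^ 2) := by
        field_simp
        ring
      have h4 : 0 < Real.sqrt 2 := by positivity
      rw [h3, Real.sqrt_mul (by norm_num), div_mul_eq_div_div, div_self h4.ne']
    rw [h2]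
    ring
  have hsub : {α : Fin K → ℝ | (∀ i, α i ∈ Set.Ioc 0 1) ∧ ¬ ∀ u : ℂ, ‖u‖ = 1 → ∀ t : ℝ,
      |(#{n ∈ A | (u * S K H f α n).re / Real.sqrt (3 / Real.pi ^ 2 * ∑ d ∈ Icc 1 H, f d ^ 2) ≤ t} : ℝ) / #A -
        cdf (gaussianReal 0 1) t| ≤ ε} ⊆ pr ⁻¹' B ∩ Set.univ.pi (fun _ => Set.Ioc (0 : ℝ) 1) := by
    rintro α ⟨h1, h2⟩
    refine ⟨?_, fun i _ => h1 i⟩
    by_contra hB'
    apply h2
    intro u hu t
    have h3 := hgood (pr α) hB' u hu t
    simp only [hval, hP]
    exact h3
  refine (measure_mono hsub).trans ?_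
  rw [← Measure.restrict_apply (hmp.measurable hBm), hmp.measure_preimage hBm.nullMeasurableSet]
  exact hB

end Pool.Agent.Results.MP_4f18df_nt.PolynomialPhases
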