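import Pool.Agent.J4.H36.MG.Transfer

/-!
# Möbius sums over random subsets of short intervals, of all densities

Let `D` be a random subset of `{1, ..., H}` which contains every element with probability `p`, independently. The sum of
`μ` over `n + D` is `p` times the sum over the whole interval `(n, n + H]` plus a fluctuation.

(1) Without any hypothesis, for almost all `D` the fluctuation is gaussian for `n` uniform in any dense subset of
`[X, 2X]` (so it is asymptotically independent of the sum over the whole interval), for all the densities `p = p(H)` with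
`p (1 - p) H → ∞` and for all `H ≤ X`.

(2) The conjecture of Good and Churchhouse for a given function `H(X)` is equivalent to its analogue for almost all random
subsets of the interval of a fixed density `p`, and it already follows from its analogue for a positive proportion of
the subsets.

The main steps are: the law of two windows `n, n'` with the same `D` has an exact product formula for its characteristic
function (`prodform`); almost all pairs of windows are almost orthogonal (`cross`, from the averaged Chowla theorem of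
Matomäki, Radziwiłł and Tao in the starting files `TH823.MRS`) and have the right number of squarefree integers
(`sqf_short`); Lévy's theorem in the plane for the joint law of the two sums gives the law for almost all `D` (`law2`);
the weights `exp (i t M(n; H))` are allowed in the average over `n` (`avg_est`), which gives the transfer
(`to_sub`, `of_sub`).
-/

set_option autoImplicit false

namespace Pool.Agent.Results.MP_4f18df_nt.PositiveDensitySubsets

open Finset Filter Topology MeasureTheory ProbabilityTheory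
open Pool.Agent.J4.H36.MG

/-- the law of Good and Churchhouse for the function `H = H(X)`, in the form of the problem: `x` is uniform in
`[X, 2X]`, and the sum of `μ(n)` over `|n - x| < H/2`, divided by `√(H/ζ(2))`, is asymptotically normal -/
def WholeWindow (H : ℝ → ℝ) : Prop :=
  ∀ t : ℝ, Tendsto (fun X : ℝ => (volume {x : ℝ | x ∈ Set.Icc X (2 * X) ∧
      (∑ n ∈ (Finset.range (⌊x + H X⌋₊ + 1)).filter (fun n : ℕ => |(n : ℝ) - x| < H X / 2),
        ((ArithmeticFunction.moebius n : ℤ) : ℝ)) / Real.sqrt (H X / (Real.pi ^ 2 / 6)) ≤ t}).toReal / X)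
    atTop (nhds (cdf (gaussianReal 0 1) t))

/-- the distribution function of the sum of `μ` over `n + D`, divided by `√(p h/ζ(2))`, for `n` uniform in the integers of
`[N, 2N]`, differs from the normal one by at most `η` everywhere -/
def Normal (p h : ℝ) (N : ℕ) (η : ℝ) (D : Finset ℕ) : Prop :=
  ∀ t : ℝ, |(#{n ∈ Icc N (2 * N) | (∑ d ∈ D, ((ArithmeticFunction.moebius (n + d) : ℤ) : ℝ)) /
    Real.sqrt (p * (h / (Real.pi ^ 2 / 6))) ≤ t} : ℝ) / #(Icc N (2 * N)) - cdf (gaussianReal 0 1) t| ≤ η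

open Classical in
/-- (1) Let `ε > 0` and `V` be given and let `0 < p < 1` and `H` be such that `p (1 - p) H` is large. Let `X ≥ H`, let
`A ⊆ [X, 2X]` be any set of at least `ε X` integers, and let `f : {1, ..., H} → [-1, 1]` be any weight with variation at
most `V` and mean square at least `ε` (for example `f = 1`). Then the set of all `D ⊆ {1, ..., H}` for which
`∑_{d ∈ D} f(d) μ(n + d) - p ∑_{d ≤ H} f(d) μ(n + d)`, divided by `√(p (1 - p) (6/π²) ∑ f(d)²)`, does not have the standard
normal law for `n` uniform in `A`, up to `ε` in the distribution function at all real `t`, has probability at most `ε`.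

(2) Let `0 < p < 1` and `X^ε < H(X) < X^(1-ε)`. Then `WholeWindow H` is equivalent to: for every `η > 0` and all large `X`
the set of all `D ⊆ {1, ..., ⌊H⌋}` with `¬ Normal` has probability at most `η`. Moreover, it holds as soon as there is a
constant `κ > 0` such that for every `η > 0` and all large `X` the set of all `D` with `Normal` has probability at least
`κ`. -/
theorem result :
    (∀ ε V : ℝ, 0 < ε → ∃ K : ℝ, ∀ p : ℝ, 0 < p → p < 1 → ∀ H : ℕ, K ≤ p * (1 - p) * H → ∀ X ≥ H,
      ∀ A ⊆ Icc X (2 * X), ε * X ≤ #A → ∀ f : ℕ → ℝ, (∀ d ∈ Icc 1 H, |f d| ≤ 1) →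
      ∑ d ∈ Ico 1 H, |f (d + 1) - f d| ≤ V → ε * H ≤ ∑ d ∈ Icc 1 H, f d ^ 2 →
      ∑ D ∈ (Icc 1 H).powerset with ¬ ∀ t : ℝ,
        |(#{n ∈ A | (∑ d ∈ D, f d * ((ArithmeticFunction.moebius (n + d) : ℤ) : ℝ) -
            p * ∑ d ∈ Icc 1 H, f d * ((ArithmeticFunction.moebius (n + d) : ℤ) : ℝ)) /
              Real.sqrt (p * (1 - p) * (6 / Real.pi ^ 2) * ∑ d ∈ Icc 1 H, f d ^ 2) ≤ t} : ℝ) / #A -
          cdf (gaussianReal 0 1) t| ≤ ε, p ^ #D * (1 - p) ^ (H - #D) ≤ ε) ∧
    (∀ p : ℝ, 0 < p → p < 1 → ∀ ε : ℝ, 0 < ε → ∀ H : ℝ → ℝ,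
      (∀ᶠ X in atTop, X ^ ε < H X ∧ H X < X ^ (1 - ε)) →
      (WholeWindow H ↔ ∀ η : ℝ, 0 < η → ∀ᶠ X : ℝ in atTop,
        ∑ D ∈ (Icc 1 ⌊H X⌋₊).powerset with ¬ Normal p (H X) ⌊X⌋₊ η D, p ^ #D * (1 - p) ^ (⌊H X⌋₊ - #D) ≤ η) ∧
      (∀ κ : ℝ, 0 < κ → (∀ η : ℝ, 0 < η → ∀ᶠ X : ℝ in atTop,
        κ ≤ ∑ D ∈ (Icc 1 ⌊H X⌋₊).powerset with Normal p (H X) ⌊X⌋₊ η D, p ^ #D * (1 - p) ^ (⌊H X⌋₊ - #D)) →
        WholeWindow H)) := by
  have hP : ∀ t : ℝ, cdf (gaussianReal 0 1) t = Pool.Agent.J4.H66.MG.Phi t := fun t => by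
    rw [Pool.Agent.J4.H66.MG.Phi_cdf]
  constructor
  · intro ε V hε
    obtain ⟨K, hK⟩ := partA ε (max V 0) hε (le_max_right _ _)
    refine ⟨max K 1, fun p hp0 hp1 H hH X hX A hA hAc f hf hV hs => ?_⟩
    have hK1 : (K : ℝ) ≤ p * (1 - p) * H := (le_max_left _ _).trans hH
    have hK2 : (1 : ℝ) ≤ p * (1 - p) * H := (le_max_right _ _).trans hH
    have hHp : (0 : ℝ) < H := by
      rcases Nat.eq_zero_or_pos H with h | h
      · rw [h] at hK2
        norm_num at hK2
      · exact_mod_cast h
    obtain ⟨g, hg⟩ : ∃ g : ℕ → ℝ, g = fun d => if d ∈ Icc 1 H then f d else 0 := ⟨_, rfl⟩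
    have hgf : ∀ d ∈ Icc 1 H, g d = f d := by
      intro d hd
      rw [hg]
      exact if_pos hd
    have e1 : ∑ d ∈ Icc 1 H, g d ^ 2 = ∑ d ∈ Icc 1 H, f d ^ 2 := sum_congr rfl (fun d hd => by rw [hgf d hd])
    have e2 : ∑ d ∈ Ico 1 H, |g (d + 1) - g d| = ∑ d ∈ Ico 1 H, |f (d + 1) - f d| := by
      apply sum_congr rfl
      intro d hd
      rw [mem_Ico] at hd
      rw [hgf d (mem_Icc.2 (by omega)), hgf (d + 1) (mem_Icc.2 (by omega))]
    have h := hK p hp0 hp1 H hK1 X hX g (by
      intro d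
      rw [hg]
      simp only
      split_ifs with hd
      · exact hf d hd
      · simp) (by rw [e2]; exact hV.trans (le_max_left _ _)) (by
        unfold Pool.Agent.J4.H66.MG.sg
        rw [e1, le_div_iff₀ hHp]
        exact hs) A hA hAc
    rw [sum_filter]
    refine le_trans (le_of_eq ?_) h
    apply sum_congr rfl
    intro D hD
    rw [mem_powerset] at hD
    have e3 : ∀ n : ℕ, (∑ d ∈ D, f d * ((ArithmeticFunction.moebius (n + d) : ℤ) : ℝ) -
            p * ∑ d ∈ Icc 1 H, f d * ((ArithmeticFunction.moebius (n + d) : ℤ) : ℝ)) /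
              Real.sqrt (p * (1 - p) * (6 / Real.pi ^ 2) * ∑ d ∈ Icc 1 H, f d ^ 2) = ZD p H g D n := by
      intro n
      unfold ZD den Pool.Agent.J4.H66.MG.sg Pool.Agent.J4.H66.MG.cc Pool.Agent.J4.H66.MG.mu
      rw [e1]
      have e4 : ∑ d ∈ D, g d * ((ArithmeticFunction.moebius (n + d) : ℤ) : ℝ) =
          ∑ d ∈ D, f d * ((ArithmeticFunction.moebius (n + d) : ℤ) : ℝ) :=
        sum_congr rfl (fun d hd => by rw [hgf d (hD hd)])
      have e5 : ∑ d ∈ Icc 1 H, g d * ((ArithmeticFunction.moebius (n + d) : ℤ) : ℝ) =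
          ∑ d ∈ Icc 1 H, f d * ((ArithmeticFunction.moebius (n + d) : ℤ) : ℝ) :=
        sum_congr rfl (fun d hd => by rw [hgf d hd])
      rw [e4, e5]
      congr 2
      field_simp
    simp only [e3, hP, ite_not]
    rfl
  · intro p hp0 hp1 ε hε H hH
    have h1 : Tendsto H atTop atTop := by
      refine tendsto_atTop_mono' atTop ?_ (tendsto_rpow_atTop hε)
      filter_upwards [hH] with X hX
      exact hX.1.le
    have h2 : Tendsto (fun X => H X / X) atTop (𝓝 0) := by
      refine squeeze_zero' ?_ ?_ (tendsto_rpow_neg_atTop hε)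
      · filter_upwards [hH, eventually_gt_atTop (0 : ℝ)] with X hX hX0
        have := Real.rpow_pos_of_pos hX0 ε
        exact div_nonneg (by linarith [hX.1]) hX0.le
      · filter_upwards [hH, eventually_gt_atTop (0 : ℝ)] with X hX hX0
        rw [div_le_iff₀ hX0]
        have e : X ^ (-ε) * X = X ^ (1 - ε) := by
          nth_rewrite 2 [← Real.rpow_one X]
          rw [← Real.rpow_add hX0]
          congr 1
          ring
        rw [e]
        exact hX.2.le
    have hiff := gc_iff H h1 h2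
    have hb : ∀ η X : ℝ, bad p (H X) η X =
        ∑ D ∈ (Icc 1 ⌊H X⌋₊).powerset with ¬ Normal p (H X) ⌊X⌋₊ η D, p ^ #D * (1 - p) ^ (⌊H X⌋₊ - #D) := by
      intro η X
      rw [sum_filter]
      unfold bad
      apply sum_congr rfl
      intro D _
      have e6 : (∀ t, |df (Icc ⌊X⌋₊ (2 * ⌊X⌋₊)) (SD (rr p (H X)) D) t - Pool.Agent.J4.H66.MG.Phi t| ≤ η) ↔
          Normal p (H X) ⌊X⌋₊ η D := by
        unfold Normal
        simp only [hP]
        rfl
      simp only [e6, ite_not]
      rfl
    have hs1 : ∀ η X : ℝ, ∑ D ∈ (Icc 1 ⌊H X⌋₊).powerset with Normal p (H X) ⌊X⌋₊ η D, p ^ #D * (1 - p) ^ (⌊H X⌋₊ - #D) +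
        bad p (H X) η X = 1 := by
      intro η X
      rw [hb, sum_filter_add_sum_filter_not]
      exact wt_sum p ⌊H X⌋₊
    have hpos : ∀ κ : ℝ, 0 < κ → (∀ η : ℝ, 0 < η → ∀ᶠ X : ℝ in atTop,
        κ ≤ ∑ D ∈ (Icc 1 ⌊H X⌋₊).powerset with Normal p (H X) ⌊X⌋₊ η D, p ^ #D * (1 - p) ^ (⌊H X⌋₊ - #D)) →
        WholeWindow H := by
      intro κ hκ h
      refine hiff.2 (of_sub p hp0 hp1 H h1 h2 κ hκ (fun η hη => ?_))
      filter_upwards [h η hη] with X hX
      linarith [hs1 η X]
    refine ⟨⟨fun h η hη => ?_, fun h => ?_⟩, hpos⟩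
    · filter_upwards [to_sub p hp0 hp1 H h1 h2 (hiff.1 h) η hη] with X hX
      rw [← hb]
      exact hX
    · refine hpos (1 / 2) (by norm_num) (fun η hη => ?_)
      filter_upwards [h (min η (1 / 2)) (by positivity)] with X hX
      have h3 : ∑ D ∈ (Icc 1 ⌊H X⌋₊).powerset with Normal p (H X) ⌊X⌋₊ (min η (1 / 2)) D, p ^ #D * (1 - p) ^ (⌊H X⌋₊ - #D) ≤
          ∑ D ∈ (Icc 1 ⌊H X⌋₊).powerset with Normal p (H X) ⌊X⌋₊ η D, p ^ #D * (1 - p) ^ (⌊H X⌋₊ - #D) := by
        apply sum_le_sum_of_subset_of_nonneg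
        · intro D hD
          rw [mem_filter] at hD ⊢
          exact ⟨hD.1, fun t => (hD.2 t).trans (min_le_left _ _)⟩
        · intro D _ _
          exact wt_nonneg p hp0.le hp1.le _ D
      have h4 := hs1 (min η (1 / 2)) X
      rw [hb] at h4
      have h5 : min η (1 / 2) ≤ 1 / 2 := min_le_right _ _
      linarith

end Pool.Agent.Results.MP_4f18df_nt.PositiveDensitySubsets
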