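import Pool.Agent.J4.H36.KW.Transfer
import Pool.Agent.J4.H36.KW.Leg

/-!
# Möbius sums over short intervals twisted by shifted Legendre symbols

Let `q` be a prime with `log q / log H → ∞`.

(1) Without any hypothesis, for almost all `a` modulo `q` the twisted sum `∑_{d ≤ H} ((a + d)/q) μ(n + d)`, divided by
`√(6 H/π²)`, is asymptotically normal for `n` uniform in any dense subset of `[X, 2X]`, for all `H ≤ X`; here `(·/q)` is the
Legendre symbol.

(2) The conjecture of Good and Churchhouse for a given function `H(X)` is equivalent to the Gaussian law for the sums of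
`μ(n + d)` over those `d ≤ H` for which `a + d` is a quadratic residue modulo `q`, for almost all `a`, and it follows from
this law for a positive proportion of the `a`.

So the random subsets of the interval in the earlier result `PositiveDensitySubsets` are replaced by explicit ones, in a family
with only `q = H^(O(1))` members. The main steps are: by Weil's bound (starting files `H341R2`) the values of the shifted
Legendre symbol at any `K` points are almost independent (`incl_count`, `qr_pseudo`); for such families, with `K` large but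
fixed, the characteristic function of the joint law of two sums is close to the one for independent choices (`kw_diff`), by
comparison of the first `K` moments; all the rest needs only this. The arithmetic input for `μ` is the averaged Chowla
theorem of Matomäki, Radziwiłł and Tao (starting files `TH823.MRS`).
-/

set_option autoImplicit false

namespace Pool.Agent.Results.MP_4f18df_nt.QuadraticResidueSubsets

open Finset Filter Topology MeasureTheory ProbabilityTheory
open Pool.Agent.J4.H36.MG Pool.Agent.J4.H36.KW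

/-- the law of Good and Churchhouse for the function `H = H(X)`, in the form of the problem: `x` is uniform in
`[X, 2X]`, and the sum of `μ(n)` over `|n - x| < H/2`, divided by `√(H/ζ(2))`, is asymptotically normal -/
def WholeWindow (H : ℝ → ℝ) : Prop :=
  ∀ t : ℝ, Tendsto (fun X : ℝ => (volume {x : ℝ | x ∈ Set.Icc X (2 * X) ∧
      (∑ n ∈ (Finset.range (⌊x + H X⌋₊ + 1)).filter (fun n : ℕ => |(n : ℝ) - x| < H X / 2),
        ((ArithmeticFunction.moebius n : ℤ) : ℝ)) / Real.sqrt (H X / (Real.pi ^ 2 / 6)) ≤ t}).toReal / X)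
    atTop (nhds (cdf (gaussianReal 0 1) t))

/-- the set of all `d` with `1 ≤ d ≤ H` for which `a + d` is a quadratic residue modulo the prime `q` (not zero) -/
noncomputable def Residues (q H : ℕ) [Fact q.Prime] (a : ZMod q) : Finset ℕ :=
  {d ∈ Icc 1 H | quadraticChar (ZMod q) (a + (d : ZMod q)) = 1}

/-- the distribution function of the sum of `μ` over `n + D`, divided by `√(h/(2 ζ(2)))`, for `n` uniform in the integers of
`[N, 2N]`, differs from the normal one by at most `η` everywhere -/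
def Normal (h : ℝ) (N : ℕ) (η : ℝ) (D : Finset ℕ) : Prop :=
  ∀ t : ℝ, |(#{n ∈ Icc N (2 * N) | (∑ d ∈ D, ((ArithmeticFunction.moebius (n + d) : ℤ) : ℝ)) /
    Real.sqrt (h / 2 / (Real.pi ^ 2 / 6)) ≤ t} : ℝ) / #(Icc N (2 * N)) - cdf (gaussianReal 0 1) t| ≤ η

open Classical in
/-- (1) Let `ε > 0` and `V` be given. There is a `K` such that the following holds for all `H ≥ K`, all primes `q ≥ H ^ K` and
all `X ≥ H`. Let `A ⊆ [X, 2X]` be any set of at least `ε X` integers, and let `f : {1, ..., H} → [-1, 1]` be any weight with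
variation at most `V` and mean square at least `ε` (for example `f = 1`). Then for all `a` modulo `q` but at most `ε q`, the
sum `∑_{d ≤ H} f(d) ((a + d)/q) μ(n + d)`, divided by `√((6/π²) ∑ f(d)²)`, has the standard normal law for `n` uniform in
`A`, up to `ε` in the distribution function at all real `t`.

(2) Let `X^ε < H(X) < X^(1-ε)`. Then `WholeWindow H` is equivalent to: for every `η > 0` there is a `K` such that for all
large `X` and all primes `q ≥ H(X) ^ K` the set `Residues q ⌊H⌋ a` is `Normal` for all `a` modulo `q` but at most `η q`.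
Moreover, it holds as soon as there is a constant `κ > 0` such that for every `η > 0`, every `K` and all large `X` there is a
prime `q ≥ H(X) ^ K` such that `Residues q ⌊H⌋ a` is `Normal` for at least `κ q` of the `a`. -/
theorem result :
    (∀ ε V : ℝ, 0 < ε → ∃ K : ℕ, ∀ H : ℕ, K ≤ H → ∀ (q : ℕ) [Fact q.Prime], H ^ K ≤ q → ∀ X ≥ H,
      ∀ A ⊆ Icc X (2 * X), ε * X ≤ #A → ∀ f : ℕ → ℝ, (∀ d ∈ Icc 1 H, |f d| ≤ 1) →
      ∑ d ∈ Ico 1 H, |f (d + 1) - f d| ≤ V → ε * H ≤ ∑ d ∈ Icc 1 H, f d ^ 2 →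
      (#{a : ZMod q | ¬ ∀ t : ℝ,
        |(#{n ∈ A | (∑ d ∈ Icc 1 H, f d * ((quadraticChar (ZMod q) (a + (d : ZMod q)) : ℤ) : ℝ) *
            ((ArithmeticFunction.moebius (n + d) : ℤ) : ℝ)) /
              Real.sqrt (6 / Real.pi ^ 2 * ∑ d ∈ Icc 1 H, f d ^ 2) ≤ t} : ℝ) / #A -
          cdf (gaussianReal 0 1) t| ≤ ε} : ℝ) ≤ ε * q) ∧
    (∀ ε : ℝ, 0 < ε → ∀ H : ℝ → ℝ, (∀ᶠ X in atTop, X ^ ε < H X ∧ H X < X ^ (1 - ε)) →
      (WholeWindow H ↔ ∀ η : ℝ, 0 < η → ∃ K : ℕ, ∀ᶠ X : ℝ in atTop, ∀ (q : ℕ) [Fact q.Prime], H X ^ K ≤ q →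
        (#{a : ZMod q | ¬ Normal (H X) ⌊X⌋₊ η (Residues q ⌊H X⌋₊ a)} : ℝ) ≤ η * q) ∧
      (∀ κ : ℝ, 0 < κ → (∀ η : ℝ, 0 < η → ∀ K : ℕ, ∀ᶠ X : ℝ in atTop, ∃ (q : ℕ) (_ : Fact q.Prime), H X ^ K ≤ q ∧
        κ * q ≤ (#{a : ZMod q | Normal (H X) ⌊X⌋₊ η (Residues q ⌊H X⌋₊ a)} : ℝ)) → WholeWindow H)) := by
  have hP : ∀ t : ℝ, cdf (gaussianReal 0 1) t = Pool.Agent.J4.H66.MG.Phi t := fun t => by
    rw [Pool.Agent.J4.H66.MG.Phi_cdf]
  constructor
  · intro ε V hε
    obtain ⟨K₀, hK₀⟩ := partK (ε / 2) (max V 0) (by positivity) (le_max_right _ _)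
    obtain ⟨N, hN⟩ := exists_nat_gt (2 / ε)
    refine ⟨4 * K₀ + N + 4, fun H hH q hq hHq X hX A hA hAc f hf hV hs => ?_⟩
    have hH2 : 2 ≤ H := by omega
    have hHp : (0 : ℝ) < H := by exact_mod_cast (by omega : 0 < H)
    have hqH : H ^ (2 * K₀ + 4) ≤ q := (Nat.pow_le_pow_right (by omega) (by omega)).trans hHq
    have hps := qr_pseudo q H K₀ hH2 (by omega) hqH
    have hq0 : (0 : ℝ) < q := by exact_mod_cast hq.out.pos
    have hX0 : (0 : ℝ) ≤ X := by positivity
    have hH3 : (K₀ : ℝ) ≤ 1 / 2 * (1 - 1 / 2) * H := by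
      have : (4 * K₀ : ℝ) ≤ H := by exact_mod_cast (by omega : 4 * K₀ ≤ H)
      linarith
    obtain ⟨g, hg⟩ : ∃ g : ℕ → ℝ, g = fun d => if d ∈ Icc 1 H then f d else 0 := ⟨_, rfl⟩
    have hgf : ∀ d ∈ Icc 1 H, g d = f d := by
      intro d hd
      rw [hg]
      exact if_pos hd
    have e1 : ∑ d ∈ Icc 1 H, g d ^ 2 = ∑ d ∈ Icc 1 H, f d ^ 2 := sum_congr rfl (fun d hd => by rw [hgf d hd])
    have e2 : ∑ d ∈ Ico 1 H, |g (d + 1) - g d| = ∑ d ∈ Ico 1 H, |f (d + 1) - f d| := by
      apply sum_congr rfl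
      intro d hd
      rw [mem_Ico] at hd
      rw [hgf d (mem_Icc.2 (by omega)), hgf (d + 1) (mem_Icc.2 (by omega))]
    have h := hK₀ (1 / 2) (by norm_num) (by norm_num) H hH3 (law (QR q H)) hps X hX g (by
      intro d
      rw [hg]
      simp only
      split_ifs with hd
      · exact hf d hd
      · simp) (by rw [e2]; exact hV.trans (le_max_left _ _)) (by
        unfold Pool.Agent.J4.H66.MG.sg
        rw [e1, le_div_iff₀ hHp]
        nlinarith) A hA (by nlinarith)
    have h' : (#{a : ZMod q | ¬ ∀ t, |df A (ZD (1 / 2) H g (QR q H a)) t - Pool.Agent.J4.H66.MG.Phi t| ≤ ε / 2} : ℝ) / q ≤ ε / 2 := by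
      have e3 := law_sum (QR q H) H (fun a => filter_subset _ _)
        (fun D => ¬ ∀ t, |df A (ZD (1 / 2) H g D) t - Pool.Agent.J4.H66.MG.Phi t| ≤ ε / 2)
      rw [ZMod.card] at e3
      rw [← e3, sum_filter]
      simp only [ite_not]
      exact h
    rw [div_le_iff₀ hq0] at h'
    -- the exceptional shifts
    have hsub : ({a : ZMod q | ¬ ∀ t : ℝ,
        |(#{n ∈ A | (∑ d ∈ Icc 1 H, f d * ((quadraticChar (ZMod q) (a + (d : ZMod q)) : ℤ) : ℝ) *
            ((ArithmeticFunction.moebius (n + d) : ℤ) : ℝ)) /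
              Real.sqrt (6 / Real.pi ^ 2 * ∑ d ∈ Icc 1 H, f d ^ 2) ≤ t} : ℝ) / #A -
          cdf (gaussianReal 0 1) t| ≤ ε} : Finset (ZMod q)) ⊆
        (Icc 1 H).image (fun d : ℕ => -(d : ZMod q)) ∪ univ.filter (fun a : ZMod q =>
          ¬ ∀ t, |df A (ZD (1 / 2) H g (QR q H a)) t - Pool.Agent.J4.H66.MG.Phi t| ≤ ε / 2) := by
      intro a ha
      rw [mem_filter] at ha
      rw [mem_union, mem_filter]
      by_contra hcon
      rw [not_or] at hcon
      obtain ⟨hz, hn⟩ := hcon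
      have hgood : ∀ t, |df A (ZD (1 / 2) H g (QR q H a)) t - Pool.Agent.J4.H66.MG.Phi t| ≤ ε / 2 := by
        by_contra hc
        exact hn ⟨mem_univ _, hc⟩
      apply ha.2
      have e4 : ∀ n : ℕ, (∑ d ∈ Icc 1 H, f d * ((quadraticChar (ZMod q) (a + (d : ZMod q)) : ℤ) : ℝ) *
            ((ArithmeticFunction.moebius (n + d) : ℤ) : ℝ)) /
              Real.sqrt (6 / Real.pi ^ 2 * ∑ d ∈ Icc 1 H, f d ^ 2) = ZD (1 / 2) H g (QR q H a) n := by
        intro n
        have e5 : ∑ d ∈ QR q H a, g d * ((ArithmeticFunction.moebius (n + d) : ℤ) : ℝ) -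
            1 / 2 * ∑ d ∈ Icc 1 H, g d * ((ArithmeticFunction.moebius (n + d) : ℤ) : ℝ) =
            1 / 2 * ∑ d ∈ Icc 1 H, f d * ((quadraticChar (ZMod q) (a + (d : ZMod q)) : ℤ) : ℝ) *
            ((ArithmeticFunction.moebius (n + d) : ℤ) : ℝ) := by
          unfold QR
          rw [sum_filter, mul_sum, mul_sum, ← sum_sub_distrib]
          apply sum_congr rfl
          intro d hd
          rw [hgf d hd]
          have hne : a + (d : ZMod q) ≠ 0 := by
            intro h0
            apply hz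
            rw [mem_image]
            exact ⟨d, hd, (eq_neg_of_add_eq_zero_left h0).symm⟩
          rcases quadraticChar_dichotomy hne with hc | hc
          · rw [if_pos hc, hc]
            push_cast
            ring
          · rw [if_neg (by rw [hc]; norm_num), hc]
            push_cast
            ring
        unfold ZD den Pool.Agent.J4.H66.MG.sg Pool.Agent.J4.H66.MG.cc Pool.Agent.J4.H66.MG.mu
        rw [e5, e1]
        have e6 : (1 / 2 * (1 - 1 / 2) * (6 / Real.pi ^ 2 * ((H : ℝ) * ((∑ d ∈ Icc 1 H, f d ^ 2) / H))) : ℝ) =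
            (1 / 2) ^ 2 * (6 / Real.pi ^ 2 * ∑ d ∈ Icc 1 H, f d ^ 2) := by
          field_simp
          ring
        have e7 : Real.sqrt ((1 / 2) ^ 2 * (6 / Real.pi ^ 2 * ∑ d ∈ Icc 1 H, f d ^ 2)) =
            1 / 2 * Real.sqrt (6 / Real.pi ^ 2 * ∑ d ∈ Icc 1 H, f d ^ 2) := by
          rw [Real.sqrt_mul (by positivity : (0 : ℝ) ≤ (1 / 2) ^ 2), Real.sqrt_sq (by norm_num)]
        rw [e6, e7, mul_div_mul_left _ _ (by norm_num : (1 / 2 : ℝ) ≠ 0)]
      intro t
      rw [hP]
      simp only [e4]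
      exact (hgood t).trans (by linarith)
    have hcard := (card_le_card hsub).trans (card_union_le _ _)
    have himg : #((Icc 1 H).image (fun d : ℕ => -(d : ZMod q))) ≤ H := card_image_le.trans (by simp)
    have hHε : (H : ℝ) ≤ ε / 2 * q := by
      have h5 : (H : ℝ) ^ 2 ≤ q := by
        have : H ^ 2 ≤ q := (Nat.pow_le_pow_right (by omega) (by omega)).trans hHq
        exact_mod_cast this
      have h6 : 2 / ε ≤ H := hN.le.trans (by exact_mod_cast (by omega : N ≤ H))
      rw [div_le_iff₀ hε] at h6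
      nlinarith
    have hcard' : (#{a : ZMod q | ¬ ∀ t : ℝ,
        |(#{n ∈ A | (∑ d ∈ Icc 1 H, f d * ((quadraticChar (ZMod q) (a + (d : ZMod q)) : ℤ) : ℝ) *
            ((ArithmeticFunction.moebius (n + d) : ℤ) : ℝ)) /
              Real.sqrt (6 / Real.pi ^ 2 * ∑ d ∈ Icc 1 H, f d ^ 2) ≤ t} : ℝ) / #A -
          cdf (gaussianReal 0 1) t| ≤ ε} : ℝ) ≤ H +
        (#{a : ZMod q | ¬ ∀ t, |df A (ZD (1 / 2) H g (QR q H a)) t - Pool.Agent.J4.H66.MG.Phi t| ≤ ε / 2} : ℝ) := by
      have := hcard.trans (Nat.add_le_add_right himg _)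
      exact_mod_cast this
    linarith
  · intro ε hε H hH
    have h1 : Tendsto H atTop atTop := by
      refine tendsto_atTop_mono' atTop ?_ (tendsto_rpow_atTop hε)
      filter_upwards [hH] with X hX
      exact hX.1.le
    have h2 : Tendsto (fun X => H X / X) atTop (𝓝 0) := by
      refine squeeze_zero' ?_ ?_ (tendsto_rpow_neg_atTop hε)
      · filter_upwards [hH, eventually_gt_atTop (0 : ℝ)] with X hX hX0
        have := Real.rpow_pos_of_pos hX0 ε
        exact div_nonneg (by linarith [hX.1]) hX0.le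
      · filter_upwards [hH, eventually_gt_atTop (0 : ℝ)] with X hX hX0
        rw [div_le_iff₀ hX0]
        have e : X ^ (-ε) * X = X ^ (1 - ε) := by
          nth_rewrite 2 [← Real.rpow_one X]
          rw [← Real.rpow_add hX0]
          congr 1
          ring
        rw [e]
        exact hX.2.le
    have hiff := gc_iff H h1 h2
    have hb : ∀ (η X : ℝ) (q : ℕ) [Fact q.Prime], badw (law (QR q ⌊H X⌋₊)) (1 / 2) (H X) η X =
        (#{a : ZMod q | ¬ Normal (H X) ⌊X⌋₊ η (Residues q ⌊H X⌋₊ a)} : ℝ) / q := by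
      intro η X q hq
      have e3 := law_sum (QR q ⌊H X⌋₊) ⌊H X⌋₊ (fun a => filter_subset _ _) (fun D => ¬ Normal (H X) ⌊X⌋₊ η D)
      rw [ZMod.card, sum_filter] at e3
      have e4 : (univ.filter fun a : ZMod q => ¬ Normal (H X) ⌊X⌋₊ η (QR q ⌊H X⌋₊ a)) =
          univ.filter fun a : ZMod q => ¬ Normal (H X) ⌊X⌋₊ η (Residues q ⌊H X⌋₊ a) := rfl
      rw [← e4, ← e3]
      unfold badw
      apply sum_congr rfl
      intro D _
      have e6 : (∀ t, |df (Icc ⌊X⌋₊ (2 * ⌊X⌋₊)) (SD (rr (1 / 2) (H X)) D) t - Pool.Agent.J4.H66.MG.Phi t| ≤ η) ↔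
          Normal (H X) ⌊X⌋₊ η D := by
        unfold Normal
        simp only [hP]
        have e7 : Real.sqrt (H X / 2 / (Real.pi ^ 2 / 6)) = rr (1 / 2) (H X) := by
          unfold rr
          congr 1
          ring
        rw [e7]
        rfl
      simp only [e6, ite_not]
    have hsum : ∀ (η X : ℝ) (q : ℕ) [Fact q.Prime], (#{a : ZMod q | Normal (H X) ⌊X⌋₊ η (Residues q ⌊H X⌋₊ a)} : ℝ) +
        (#{a : ZMod q | ¬ Normal (H X) ⌊X⌋₊ η (Residues q ⌊H X⌋₊ a)} : ℝ) = q := by
      intro η X q hq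
      have := card_filter_add_card_filter_not (s := (univ : Finset (ZMod q)))
        (fun a => Normal (H X) ⌊X⌋₊ η (Residues q ⌊H X⌋₊ a))
      rw [card_univ, ZMod.card] at this
      exact_mod_cast this
    have hq' : ∀ (K q : ℕ) (X : ℝ), 0 ≤ H X → H X ^ K ≤ q → ⌊H X⌋₊ ^ K ≤ q := by
      intro K q X h0 h
      have : ((⌊H X⌋₊ ^ K : ℕ) : ℝ) ≤ q := by
        push_cast
        exact (pow_le_pow_left₀ (by positivity) (Nat.floor_le h0) K).trans h
      exact_mod_cast this
    have hpos : ∀ κ : ℝ, 0 < κ → (∀ η : ℝ, 0 < η → ∀ K : ℕ, ∀ᶠ X : ℝ in atTop, ∃ (q : ℕ) (_ : Fact q.Prime), H X ^ K ≤ q ∧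
        κ * q ≤ (#{a : ZMod q | Normal (H X) ⌊X⌋₊ η (Residues q ⌊H X⌋₊ a)} : ℝ)) → WholeWindow H := by
      intro κ hκ h
      refine hiff.2 (of_kw (1 / 2) (by norm_num) (by norm_num) H h1 h2 κ hκ (fun η hη K => ?_))
      filter_upwards [h η hη (2 * K + 4), h1.eventually_ge_atTop (2 * (K : ℝ) + 2)] with X hX hXK
      obtain ⟨q, hq, hqH, hκq⟩ := hX
      have hHK : 2 * K + 2 ≤ ⌊H X⌋₊ := Nat.le_floor (by push_cast; exact hXK)
      have hq0 : (0 : ℝ) < q := by exact_mod_cast hq.out.pos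
      refine ⟨law (QR q ⌊H X⌋₊), qr_pseudo q ⌊H X⌋₊ K (by omega) (by omega)
        (hq' _ _ X (by have : (0 : ℝ) ≤ K := by positivity
                       linarith) hqH), ?_⟩
      rw [hb, div_le_iff₀ hq0]
      have := hsum η X q
      linarith
    refine ⟨⟨fun h η hη => ?_, fun h => ?_⟩, hpos⟩
    · obtain ⟨K, hK⟩ := to_kw (1 / 2) (by norm_num) (by norm_num) H h1 h2 (hiff.1 h) η hη
      refine ⟨2 * K + 4, ?_⟩
      filter_upwards [hK, h1.eventually_ge_atTop (2 * (K : ℝ) + 2)] with X hX hXK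
      intro q hq hqH
      have hHK : 2 * K + 2 ≤ ⌊H X⌋₊ := Nat.le_floor (by push_cast; exact hXK)
      have hq0 : (0 : ℝ) < q := by exact_mod_cast hq.out.pos
      have h3 := hX (law (QR q ⌊H X⌋₊)) (qr_pseudo q ⌊H X⌋₊ K (by omega) (by omega)
        (hq' _ _ X (by have : (0 : ℝ) ≤ K := by positivity
                       linarith) hqH))
      rw [hb, div_le_iff₀ hq0] at h3
      exact h3
    · refine hpos (1 / 2) (by norm_num) (fun η hη K => ?_)
      obtain ⟨K', hK'⟩ := h (min η (1 / 2)) (by positivity)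
      filter_upwards [hK', h1.eventually_ge_atTop 1] with X hX hX1
      obtain ⟨q, hqle, hqp⟩ := Nat.exists_infinite_primes (⌈H X ^ K⌉₊ + ⌈H X ^ K'⌉₊)
      have hq : Fact q.Prime := ⟨hqp⟩
      have g1 : H X ^ K ≤ q := (Nat.le_ceil _).trans (by exact_mod_cast (by omega : ⌈H X ^ K⌉₊ ≤ q))
      have g2 : H X ^ K' ≤ q := (Nat.le_ceil _).trans (by exact_mod_cast (by omega : ⌈H X ^ K'⌉₊ ≤ q))
      refine ⟨q, hq, g1, ?_⟩
      have h3 := hX q g2
      have h4 := hsum (min η (1 / 2)) X q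
      have h5 : (#{a : ZMod q | Normal (H X) ⌊X⌋₊ (min η (1 / 2)) (Residues q ⌊H X⌋₊ a)} : ℝ) ≤
          (#{a : ZMod q | Normal (H X) ⌊X⌋₊ η (Residues q ⌊H X⌋₊ a)} : ℝ) := by
        apply Nat.cast_le.2
        apply card_le_card
        intro a ha
        rw [mem_filter] at ha ⊢
        exact ⟨ha.1, fun t => (ha.2 t).trans (min_le_left _ _)⟩
      have hq0 : (0 : ℝ) < q := by exact_mod_cast hqp.pos
      have h6 : min η (1 / 2) * (q : ℝ) ≤ 1 / 2 * q := mul_le_mul_of_nonneg_right (min_le_right _ _) hq0.le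
      linarith

end Pool.Agent.Results.MP_4f18df_nt.QuadraticResidueSubsets
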