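import Pool.Agent.J4.H66.MG.Main

/-!
# The Gaussian law for Möbius sums over almost all thin subsets of short intervals

The sum of `μ` over the whole interval `(n, n + H]` is replaced by the sum over `n + D` for a set `D ⊆ {1, ..., H}` of `k`
elements, where `k → ∞` arbitrarily slowly with respect to `H`. The main steps are: (1) averaged Chowla for the tuples of
shifts, with arbitrary bounded weights (the theorem of Matomäki, Radziwiłł and Tao in the starting files `TH823.MRS`,
applied in one coordinate of the tuple at a time, `Pool.Agent.J4.H66.MG.tup`); (2) the second moment over the tuples of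
the conditional variance `∑ f(d)² μ(n + d)²`, by squarefree integers in almost all short intervals, up to all the lengths
(`sqf_short`, `secd`); (3) the expansion of the characteristic function in patterns of exponents `0, 1, 2`
(`char_main`); (4) Lévy's continuity theorem and uniform convergence (`det`); (5) from tuples to subsets (`subs`).
-/

set_option autoImplicit false

namespace Pool.Agent.Results.MP_4f18df_nt.ThinSubsets

open Finset

open Classical in
/-- Let `ε > 0` and `V` be given, let `k` be large, and let `H` be large in terms of `k`. Let `X ≥ H`, let `A ⊆ [X, 2X]` be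
any set of at least `ε X` integers, and let `f : {1, ..., H} → [-1, 1]` be any weight with variation at most `V` and
with the mean square `σ² = (∑_{d ≤ H} f(d)²) / H ≥ ε` (for example `f = 1`). Then for all the subsets
`D ⊆ {1, ..., H}` of `k` elements, with the exception of at most `ε * (H choose k)` subsets, the sum
`∑_{d ∈ D} f(d) μ(n + d)`, divided by `√(6/π² k σ²)`, has the standard normal law for `n` uniform in `A`, up to an error
of `ε` in the distribution function at all real `t` simultaneously. -/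
theorem result (ε V : ℝ) (hε : 0 < ε) : ∃ k₀ : ℕ, ∀ k ≥ k₀, ∃ H₀ : ℕ, ∀ H ≥ H₀, ∀ X ≥ H,
    ∀ A ⊆ Icc X (2 * X), ε * X ≤ #A → ∀ f : ℕ → ℝ, (∀ d ∈ Icc 1 H, |f d| ≤ 1) →
    ∑ d ∈ Ico 1 H, |f (d + 1) - f d| ≤ V → ε * H ≤ ∑ d ∈ Icc 1 H, f d ^ 2 →
    (#{D ∈ (Icc 1 H).powersetCard k | ¬ ∀ t : ℝ,
      |(#{n ∈ A | ∑ d ∈ D, f d * ((ArithmeticFunction.moebius (n + d) : ℤ) : ℝ) ≤
          t * Real.sqrt (6 / Real.pi ^ 2 * k * ((∑ d ∈ Icc 1 H, f d ^ 2) / H))} : ℝ) / #A -
        (ProbabilityTheory.gaussianReal 0 1).real (Set.Iic t)| ≤ ε} : ℝ) ≤ ε * H.choose k := by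
  obtain ⟨k₀, hk₀⟩ := Pool.Agent.J4.H66.MG.main ε V hε
  refine ⟨k₀, fun k hk => ?_⟩
  obtain ⟨H₀, hH₀⟩ := hk₀ k hk
  refine ⟨H₀ + 1, fun H hH X hX A hA hAc f hf hfV hsg => ?_⟩
  have hH0 : (0 : ℝ) < H := by exact_mod_cast (by omega : 0 < H)
  obtain ⟨g, hg⟩ : ∃ g : ℕ → ℝ, g = fun d => if d ∈ Icc 1 H then f d else 0 := ⟨_, rfl⟩
  have hgf : ∀ d ∈ Icc 1 H, g d = f d := by
    intro d hd
    rw [hg]
    exact if_pos hd
  have e1 : ∑ d ∈ Icc 1 H, g d ^ 2 = ∑ d ∈ Icc 1 H, f d ^ 2 :=
    sum_congr rfl (fun d hd => by rw [hgf d hd])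
  have e2 : ∑ d ∈ Ico 1 H, |g (d + 1) - g d| = ∑ d ∈ Ico 1 H, |f (d + 1) - f d| := by
    apply sum_congr rfl
    intro d hd
    rw [mem_Ico] at hd
    rw [hgf d (mem_Icc.2 (by omega)), hgf (d + 1) (mem_Icc.2 (by omega))]
  have h := hH₀ H (by omega) X hX A hA hAc g (by
    intro d
    rw [hg]
    simp only
    split_ifs with hd
    · exact hf d hd
    · simp) (by rw [e2]; exact hfV) (by
      unfold Pool.Agent.J4.H66.MG.sg
      rw [e1, le_div_iff₀ hH0]
      exact hsg)
  refine le_trans (le_of_eq ?_) h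
  congr 2
  apply filter_congr
  intro D hD
  rw [mem_powersetCard] at hD
  have e3 : ∀ n : ℕ, ∑ d ∈ D, f d * ((ArithmeticFunction.moebius (n + d) : ℤ) : ℝ) =
      ∑ d ∈ D, g d * Pool.Agent.J4.H66.MG.mu (n + d) := by
    intro n
    apply sum_congr rfl
    intro d hd
    rw [hgf d (hD.1 hd)]
    rfl
  have e4 : Real.sqrt (6 / Real.pi ^ 2 * k * ((∑ d ∈ Icc 1 H, f d ^ 2) / H)) =
      Pool.Agent.J4.H66.MG.sc k H g := by
    unfold Pool.Agent.J4.H66.MG.sc Pool.Agent.J4.H66.MG.sg Pool.Agent.J4.H66.MG.cc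
    rw [e1]
  simp only [e3, e4]
  rfl

end Pool.Agent.Results.MP_4f18df_nt.ThinSubsets
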